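import Pool.Agent.Lib.MP_37c7bf_co_helper26.Generic
import Pool.Agent.Lib.MP_37c7bf_co_Dense.ZeroOne

/-!
# The two notions of generic rigidity in three-space agree (at least four vertices)

`H26R.GenericallyRigid` is the notion of the problem file (almost all frameworks are rigid),
`MP_37c7bf_co_Dense.GenericallyRigid` says that almost all frameworks are infinitesimally rigid.
-/

open MeasureTheory Module
open scoped RealInnerProductSpace Matrix

namespace Pool.Agent.Lib.MP_37c7bf_co_h91dm

open Pool.Agent.H26R (E3 Flex Spans triv crossE)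
open Pool.Agent.MP_37c7bf_co_Dense (Pt InfRigid IsInfMotion IsTrivialMotion)

theorem inner_eq_dot (x y : E3) : ⟪x, y⟫ = (x.ofLp : Fin 3 → ℝ) ⬝ᵥ y.ofLp := by
  rw [Pool.Agent.H26R.inner_E3]
  simp [dotProduct, Fin.sum_univ_three]

theorem crossE_ofLp (ω x : E3) : (crossE ω x).ofLp = ω.ofLp ⨯₃ x.ofLp := by
  rw [cross_apply]
  ext k
  fin_cases k <;> simp [crossE]

theorem triv_ofLp {V : Type*} (p : V → E3) (z : E3 × E3) (v : V) :
    (triv p z v).ofLp = z.1.ofLp ⨯₃ (p v).ofLp + z.2.ofLp := by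
  rw [Pool.Agent.H26R.triv_apply, Pool.Agent.H26R.K_apply, ← crossE_ofLp]
  rfl

theorem infRigid_of_le {V : Type*} {G : SimpleGraph V} {p : V → E3}
    (h : Flex G p ≤ LinearMap.range (triv p)) : InfRigid G (fun v => (p v).ofLp) := by
  intro u hu
  have h1 : (fun v => (WithLp.toLp 2 (u v) : E3)) ∈ Flex G p := by
    rw [Pool.Agent.H26R.mem_Flex]
    intro i j hij
    rw [inner_eq_dot]
    exact hu i j hij
  obtain ⟨z, hz⟩ := h h1
  refine ⟨z.1.ofLp, z.2.ofLp, fun v => ?_⟩
  rw [← triv_ofLp, hz]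

theorem le_of_infRigid {V : Type*} {G : SimpleGraph V} {p : V → E3}
    (h : InfRigid G (fun v => (p v).ofLp)) : Flex G p ≤ LinearMap.range (triv p) := by
  intro w hw
  rw [Pool.Agent.H26R.mem_Flex] at hw
  obtain ⟨r, t, hrt⟩ := h (fun v => (w v).ofLp) (by
    intro i j hij
    have := hw i j hij
    rw [inner_eq_dot] at this
    exact this)
  refine ⟨(WithLp.toLp 2 r, WithLp.toLp 2 t), ?_⟩
  funext v
  apply (WithLp.ofLp_injective 2)
  rw [triv_ofLp]
  exact (hrt v).symm

/-- Generic rigidity in the sense of the problem file is generic infinitesimal rigidity. -/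
theorem genericallyRigid_iff_dense {V : Type*} [Fintype V] (hcard : 4 ≤ Fintype.card V)
    (G : SimpleGraph V) : Pool.Agent.H26R.GenericallyRigid G ↔
      Pool.Agent.MP_37c7bf_co_Dense.GenericallyRigid G := by
  classical
  constructor
  · intro h
    obtain ⟨p₀, hp₀⟩ := Pool.Agent.H26R.exists_of_genericallyRigid hcard h
    obtain ⟨f⟩ : Nonempty (Fin 4 ↪ V) := by
      rw [Function.Embedding.nonempty_iff_card_le]; simpa using hcard
    have hne : ∀ i j : Fin 4, i ≠ j → f i ≠ f j := fun i j hij h => hij (f.injective h)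
    have h1 := Pool.Agent.H26R.ae_spans (hne 0 1 (by decide)) (hne 0 2 (by decide))
      (hne 0 3 (by decide)) (hne 1 2 (by decide)) (hne 1 3 (by decide)) (hne 2 3 (by decide))
    have h2 := Pool.Agent.H26R.ae_finrank_ker_le (volume : Measure (V → E3))
      (Pool.Agent.H26R.rig G) p₀
    obtain ⟨p, hs, hm⟩ := (h1.and h2).exists
    have h3 : finrank ℝ (Flex G p) ≤ 6 := le_trans hm hp₀
    have h4 := Pool.Agent.H26R.Flex_eq_range_triv ⟨_, _, _, _, hs⟩ h3
    have h5 := infRigid_of_le h4.le
    rcases Pool.Agent.MP_37c7bf_co_Dense.zero_one G with h6 | h6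
    · exact h6
    · exact absurd h5 (h6 _)
  · intro h
    obtain ⟨q, hq⟩ := (show ∀ᵐ p : V → Pt, InfRigid G p from h).exists
    have h1 : Flex G (fun v => (WithLp.toLp 2 (q v) : E3)) ≤
        LinearMap.range (triv (fun v => (WithLp.toLp 2 (q v) : E3))) := le_of_infRigid hq
    refine Pool.Agent.H26R.genericallyRigid_of_exists hcard
      ⟨fun v => WithLp.toLp 2 (q v), ?_⟩
    refine (Submodule.finrank_mono h1).trans ?_
    refine (LinearMap.finrank_range_le _).trans ?_
    simp

theorem bridge (n : ℕ) (hn : 4 ≤ n) (G : SimpleGraph (Fin n)) :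
    Pool.Agent.H26R.GenericallyRigid G ↔ Pool.Agent.MP_37c7bf_co_Dense.GenericallyRigid G :=
  genericallyRigid_iff_dense (by simpa using hn) G

end Pool.Agent.Lib.MP_37c7bf_co_h91dm
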